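import Pool.Agent.H76.SF.Stm

set_option autoImplicit false

namespace H42.SF

open H76.SF Finset Classical

theorem t_OUT (hGRE : S_GRE) : S_OUT := by
  intro V _ G n r q hr hV hn hno W hW hat w hw hwt
  by_contra hcon
  push Not at hcon
  set m := r * (q + 1) with hm
  have hmr : r ≤ m := Nat.le_mul_of_pos_right _ (Nat.succ_pos _)
  obtain ⟨L1, hL1s, hL1c⟩ := Finset.exists_subset_card_eq hcon
  have hA : n - 4 * m ≤ (W.filter (fun x => Gᶜ.Adj w x)).card := by
    have h1 : W.erase w ⊆ W.filter (fun x => Gᶜ.Adj w x) ∪ W.filter (fun x => G.Adj w x) := by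
      intro x hx
      rw [Finset.mem_erase] at hx
      rw [Finset.mem_union, Finset.mem_filter, Finset.mem_filter]
      by_cases h : G.Adj w x
      · exact Or.inr ⟨hx.2, h⟩
      · exact Or.inl ⟨hx.2, (SimpleGraph.compl_adj G w x).mpr ⟨hx.1.symm, h⟩⟩
    have h2 := Finset.card_le_card h1
    have h3 := Finset.card_union_le (W.filter (fun x => Gᶜ.Adj w x)) (W.filter (fun x => G.Adj w x))
    rw [Finset.card_erase_of_mem hw] at h2
    omega
  obtain ⟨L2, hL2s, hL2c⟩ := Finset.exists_subset_card_eq hA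
  have hL1 : ∀ x ∈ L1, Gᶜ.Adj w x ∧ x ∉ W := by
    intro x hx
    have := hL1s hx
    rw [Finset.mem_filter] at this
    exact this.2
  have hL2 : ∀ x ∈ L2, x ∈ W ∧ Gᶜ.Adj w x := by
    intro x hx
    have := hL2s hx
    rw [Finset.mem_filter] at this
    exact this
  have hdisj : Disjoint L1 L2 := by
    rw [Finset.disjoint_left]
    intro x hx hx'
    exact (hL1 x hx).2 (hL2 x hx').1
  have hwL2 : w ∉ L2 := fun h => (hL2 w h).2.ne rfl
  have hL2W : L2 ⊆ W := fun x hx => (hL2 x hx).1
  have hRc : ((W \ L2).erase w).card = 4 * m + r - 2 := by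
    rw [Finset.card_erase_of_mem (Finset.mem_sdiff.mpr ⟨hw, hwL2⟩),
      Finset.card_sdiff_of_subset hL2W]
    omega
  have hT : r ≤ (((W \ L2).erase w).filter
      (fun x => (W.filter (fun y => G.Adj x y)).card < m)).card := by
    have h1 := Finset.card_filter_add_card_filter_not (s := (W \ L2).erase w)
      (fun x => (W.filter (fun y => G.Adj x y)).card < m)
    have h2 : ((W \ L2).erase w).filter (fun x => ¬ (W.filter (fun y => G.Adj x y)).card < m) ⊆
        W.filter (fun w => m ≤ (W.filter (fun x => G.Adj w x)).card) := by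
      intro x hx
      rw [Finset.mem_filter, Finset.mem_erase, Finset.mem_sdiff] at hx
      rw [Finset.mem_filter]
      exact ⟨hx.1.2.1, not_lt.mp hx.2⟩
    have h3 := Finset.card_le_card h2
    omega
  obtain ⟨U, hUs, hUc⟩ := Finset.exists_subset_card_eq hT
  have hU : ∀ x ∈ U, x ≠ w ∧ x ∈ W ∧ x ∉ L2 ∧ (W.filter (fun y => G.Adj x y)).card < m := by
    intro x hx
    have := hUs hx
    rw [Finset.mem_filter, Finset.mem_erase, Finset.mem_sdiff] at this
    exact ⟨this.1.1, this.1.2.1, this.1.2.2, this.2⟩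
  let u : Fin r → V := fun i => ((U.equivFinOfCardEq hUc).symm i : V)
  have hu : ∀ i, u i ∈ U := fun i => ((U.equivFinOfCardEq hUc).symm i).2
  have hnotL : ∀ x, x ∈ W → x ∉ L2 → x ∉ L1 ∪ L2 := by
    intro x hx hx2 h
    rw [Finset.mem_union] at h
    rcases h with h | h
    · exact (hL1 x h).2 hx
    · exact hx2 h
  apply hno
  apply hGRE V Gᶜ n r q w (L1 ∪ L2) u
  · rw [Finset.card_union_of_disjoint hdisj, hL1c, hL2c]
    omega
  · intro x hx
    rw [Finset.mem_union] at hx
    rcases hx with h | h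
    · exact (hL1 x h).1
    · exact (hL2 x h).2
  · intro i j hij
    exact (U.equivFinOfCardEq hUc).symm.injective (Subtype.ext hij)
  · intro i
    have h := hU _ (hu i)
    exact ⟨h.1, hnotL _ h.2.1 h.2.2.1⟩
  · intro i
    have h := hU _ (hu i)
    have h1 : ((W \ L2).erase w).erase (u i) ⊆
        univ.filter (fun x => Gᶜ.Adj (u i) x ∧ x ∉ L1 ∪ L2 ∧ x ≠ w) ∪
          W.filter (fun y => G.Adj (u i) y) := by
      intro x hx
      rw [Finset.mem_erase, Finset.mem_erase, Finset.mem_sdiff] at hx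
      rw [Finset.mem_union, Finset.mem_filter, Finset.mem_filter]
      by_cases hadj : G.Adj (u i) x
      · exact Or.inr ⟨hx.2.2.1, hadj⟩
      · exact Or.inl ⟨Finset.mem_univ _, (SimpleGraph.compl_adj G _ x).mpr ⟨hx.1.symm, hadj⟩,
          hnotL x hx.2.2.1 hx.2.2.2, hx.2.1⟩
    have h2 := Finset.card_le_card h1
    have h3 := Finset.card_union_le
      (univ.filter (fun x => Gᶜ.Adj (u i) x ∧ x ∉ L1 ∪ L2 ∧ x ≠ w))
      (W.filter (fun y => G.Adj (u i) y))
    have hmem : u i ∈ (W \ L2).erase w := by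
      rw [Finset.mem_erase, Finset.mem_sdiff]
      exact ⟨h.1, h.2.1, h.2.2.1⟩
    rw [Finset.card_erase_of_mem hmem, hRc] at h2
    have h4 := h.2.2.2
    have h5 : m ≤ (univ.filter (fun x => Gᶜ.Adj (u i) x ∧ x ∉ L1 ∪ L2 ∧ x ≠ w)).card := by
      omega
    convert h5

end H42.SF
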